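import Pool.Agent.Lib.MP_b5066f_al.Final

/-!
# MP_b5066f_al, Q1: the Gelfand-Tsetlin degree of the Verma module `M(-ρ)` over `gl(n)`
equals `(n-1)! (n-2)! ⋯ 2! 1!`
-/

namespace Pool.Agent.Results.MP_b5066f_al.DegreeMinusRho

open Pool.Agent.Lib.MP_b5066f_al

/-- The Gelfand-Tsetlin degree of `M(-ρ)` is `∏_{k=1}^{n-1} k!`, for every `n ≥ 2`. -/
theorem result (n : ℕ) (hn : 2 ≤ n) :
    degree (GT n) (Verma n (negRho n)) =
      ((∏ k ∈ Finset.Icc 1 (n - 1), k.factorial : ℕ) : ℕ∞) := by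
  have h2 := degree_eq n (by omega) (fun j : ℕ => -(((n : ℂ) - 1) / 2 - (j : ℂ)))
    (((n : ℂ) - 1) / 2) (by intro j _; ring)
  refine (h2 : degree (GT n) (Verma n (negRho n)) = _).trans ?_
  congr 1
  obtain ⟨m, rfl⟩ : ∃ m, n = m + 1 := ⟨n - 1, by omega⟩
  rw [Nat.add_sub_cancel, Finset.prod_range_succ', Nat.factorial_zero, mul_one,
    Finset.range_eq_Ico, Finset.prod_Ico_add' (fun k => k.factorial) 0 m 1, zero_add]
  rfl

end Pool.Agent.Results.MP_b5066f_al.DegreeMinusRho
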